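import Pool.Agent.Lib.MP_0e848e_co.Wheel

set_option autoImplicit false

namespace Pool.Agent.Results.MP_0e848e_co.WheelCounterexample

open Pool.Agent.Lib.MP_0e848e_co

/-- There is an irreducible real arrangement of odd rank at least three whose tope graph is not
vertex-transitive although `Φ_(2n)` does not divide the denominator of its magnitude. -/
theorem result :
    ∃ (d : ℕ) (A : Arrangement d), Odd (rk A.hyps) ∧ 3 ≤ rk A.hyps ∧ A.Irreducible ∧
      ¬ VertexTransitive A.topeGraph ∧
      ¬ (Polynomial.cyclotomic (2 * A.hyps.card) ℚ ∣ A.mag.denom) := by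
  refine ⟨5, wheel, ?_, ?_, irred, not_vt, ?_⟩
  · rw [rk_hyps]; decide
  · rw [rk_hyps]; decide
  · rw [card_hyps]; exact not_dvd_denom

end Pool.Agent.Results.MP_0e848e_co.WheelCounterexample
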